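import Pool.Agent.K3h82.OT.Tow

/-!
# The conditions for a polynomial whose Galois group is an `ℓ`-group
-/

set_option autoImplicit false
set_option linter.all false

open Polynomial Pool.Agent.Y157.PS IsDedekindDomain NumberField

namespace Pool.Agent.K3h82.OT

open Pool.Agent.K3h82.OP Pool.Agent.Y158.GR

/-- good reduction of `d y ^ ℓ = f(x)` at `v`, which does not divide `ℓ` -/
def GoodPl {K : Type} [Field K] [NumberField K] (ℓ : ℕ) (f : K[X]) (d : K)
    (v : HeightOneSpectrum (𝓞 K)) : Prop :=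
  (ℓ : 𝓞 K) ∉ v.asIdeal ∧ (∃ t : WithZero (Multiplicative ℤ), v.valuation K d = t ^ ℓ) ∧ SepAt v f

section

variable {K K' κ : Type} [Field K] [NumberField K] [Field K'] [NumberField K'] [Algebra K K']
  [Field κ] [Algebra K κ] [Algebra K' κ] [IsScalarTower K K' κ] [IsAlgClosure K κ]

/-- the inertia groups at the places of good reduction act trivially on the splitting field -/
theorem unr_of {f : K[X]} (hm : f.Monic) {v : HeightOneSpectrum (𝓞 K)} (hf : SepAt v f)
    (hK' : Algebra.adjoin K (f.rootSet K') = ⊤) {V : ValuationSubring κ} (hV : Above v V)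
    {σ : κ ≃ₐ[K] κ} (hσ : Ine V σ) (z : K') : σ (algebraMap K' κ z) = algebraMap K' κ z := by
  obtain ⟨h1, h2⟩ := root_facts hV hm hf
  have h3 : ∀ e : κ, aeval e f = 0 → σ e = e := by
    intro e he
    have h4 : aeval (σ e) f = 0 := by
      have h5 := Polynomial.aeval_algHom_apply (σ : κ →ₐ[K] κ) e f
      change aeval (σ e) f = σ (aeval e f) at h5
      rw [h5, he, map_zero]
    exact h2 _ _ h4 he (hσ.2 e (h1 e he))
  have h4 : ((σ : κ →ₐ[K] κ).comp (IsScalarTower.toAlgHom K K' κ)) =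
      IsScalarTower.toAlgHom K K' κ := by
    refine AlgHom.ext_of_adjoin_eq_top hK' fun e he => ?_
    refine h3 _ ?_
    have h5 : aeval e f = 0 := (Polynomial.mem_rootSet.1 he).2
    have h6 := Polynomial.aeval_algHom_apply (IsScalarTower.toAlgHom K K' κ) e f
    rw [h5, map_zero] at h6
    exact h6
  exact DFunLike.congr_fun h4 z

/-- good reduction over `K'` -/
theorem good_up {ℓ : ℕ} [hp : Fact ℓ.Prime] {f : K[X]} (hm : f.Monic) {d : K} (hd : d ≠ 0)
    {v : HeightOneSpectrum (𝓞 K)} (hv : GoodPl ℓ f d v) {w : HeightOneSpectrum (𝓞 K')}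
    {V : ValuationSubring κ} (hV : Above v V) (hw : Above w V) (E : Finset K')
    (hE : ∀ e ∈ E, aeval e f = 0) : GoodAt ℓ E (algebraMap K K' d) w := by
  have hch : CharZero κ := charZero_of_injective_algebraMap (algebraMap K κ).injective
  haveI : Algebra.IsAlgebraic K κ := IsAlgClosure.isAlgebraic
  haveI : IsAlgClosed κ := IsAlgClosure.isAlgClosed K
  haveI : Algebra.IsAlgebraic K' κ := Algebra.IsAlgebraic.tower_top (K := K) K'
  haveI : IsAlgClosure K' κ := ⟨inferInstance, inferInstance⟩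
  obtain ⟨hℓ, ⟨t, ht⟩, hs⟩ := hv
  obtain ⟨h1, h2⟩ := root_facts hV hm hs
  have hroot : ∀ e ∈ E, aeval (algebraMap K' κ e) f = 0 := by
    intro e he
    have h6 := Polynomial.aeval_algHom_apply (IsScalarTower.toAlgHom K K' κ) e f
    rw [hE e he, map_zero] at h6
    exact h6
  refine ⟨?_, ?_, fun e he => (hw e).1 (h1 _ (hroot e he)), fun e he e' he' hne => ?_⟩
  · intro h3
    have h4 := hw.ideal _ h3
    have h5 := ell_unit hV hℓ
    apply h5.not_nonunit
    rw [map_natCast, map_natCast] at h4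
    exact h4
  · obtain ⟨t₀, ht₀⟩ := v.valuation_surjective K t
    have ht0 : t₀ ≠ 0 := by
      rintro rfl
      rw [map_zero] at ht₀
      rw [← ht₀, zero_pow hp.out.ne_zero] at ht
      exact hd ((Valuation.zero_iff _).1 ht)
    have h3 : v.valuation K (d / t₀ ^ ℓ) = 1 := by
      rw [map_div₀, map_pow, ht₀, ht, div_self]
      rw [← ht]
      exact (Valuation.ne_zero_iff _).2 hd
    have h4 : IsU V (algebraMap K' κ (algebraMap K K' (d / t₀ ^ ℓ))) := by
      rw [← IsScalarTower.algebraMap_apply, hV.isU]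
      exact h3
    rw [hw.isU] at h4
    refine ⟨w.valuation K' (algebraMap K K' t₀), ?_⟩
    rw [map_div₀, map_pow, map_div₀, map_pow] at h4
    have h5 : w.valuation K' (algebraMap K K' t₀) ^ ℓ ≠ 0 :=
      pow_ne_zero _ ((Valuation.ne_zero_iff _).2 ((_root_.map_ne_zero _).2 ht0))
    exact (div_eq_one_iff_eq h5).1 h4
  · rw [← hw.isU]
    refine isU_of_not_nonunit ?_ fun h3 => hne ?_
    · rw [map_sub]
      exact sub_mem (h1 _ (hroot e he)) (h1 _ (hroot e' he'))
    · rw [map_sub] at h3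
      exact (algebraMap K' κ).injective (h2 _ _ (hroot e he) (hroot e' he') h3)

end

/-- **the conditions are satisfied** -/
theorem tower_cond {K : Type} [Field K] [NumberField K] {ℓ : ℕ} [hp : Fact ℓ.Prime] {ζ : K}
    (hζ : IsPrimitiveRoot ζ ℓ) {f : K[X]} (hm : f.Monic) {d : K} (hd : d ≠ 0)
    {C L : Type} [Field C] [Field L] [Algebra L C] [Algebra K C] [Algebra K L]
    [IsScalarTower K L C] [CharZero L] [IsAlgClosure L C] (hinj : LocPow ℓ L (GoodPl ℓ f d))
    {K' : Type} [Field K'] [NumberField K'] [Algebra K K'] [Normal K K']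
    (hK' : Algebra.adjoin K (f.rootSet K') = ⊤)
    (hpow : ∀ σ : K' ≃ₐ[K] K', ∃ n : ℕ, σ ^ (ℓ ^ n) = 1) (E : Finset K')
    (hE : ∀ e ∈ E, aeval e f = 0) (i : K' →ₐ[K] C) :
    AllAt L i ∧ LocAt ℓ L i (GoodAt ℓ E (algebraMap K K' d)) := by
  haveI : FiniteDimensional K K' := Module.Finite.of_restrictScalars_finite ℚ K K'
  haveI : Algebra.IsAlgebraic K (AlgebraicClosure K') :=
    Algebra.IsAlgebraic.trans K K' (AlgebraicClosure K')
  haveI : IsAlgClosure K (AlgebraicClosure K') := ⟨inferInstance, inferInstance⟩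
  obtain ⟨κ, i1, i2, i3, i4, i5⟩ : ∃ (κ : Type) (_ : Field κ) (_ : Algebra K κ) (_ : Algebra K' κ)
      (_ : IsScalarTower K K' κ), IsAlgClosure K κ :=
    ⟨AlgebraicClosure K', inferInstance, inferInstance, inferInstance, inferInstance, inferInstance⟩
  have hunr : ∀ v, GoodPl ℓ f d v → ∀ V : ValuationSubring κ, Above v V →
      ∀ σ : κ ≃ₐ[K] κ, Ine V σ → ∀ z : K', σ (algebraMap K' κ z) = algebraMap K' κ z :=
    fun v hv V hV σ hσ z => unr_of hm hv.2.2 hK' hV hσ z
  refine ⟨allAt_up (κ := κ) hζ (fun v hv => hv.1) hinj hpow hunr i,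
    locAt_up (κ := κ) hζ (fun v hv => hv.1) hinj (fun v w V hv hV hw => ?_) hpow hunr i⟩
  exact good_up hm hd hv hV hw E hE

end Pool.Agent.K3h82.OT
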