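import Pool.Agent.K3h82.OP.Det

/-!
# A decomposition group which has the right characters is everything
-/

set_option autoImplicit false
set_option linter.all false

open IsDedekindDomain NumberField Pool.Agent.Y157.PS

namespace Pool.Agent.K3h82.OT

open Pool.Agent.Y158.GR Pool.Agent.K3h82.OP

/-- a proper subgroup of a finite `ℓ`-group is in the kernel of a nontrivial character of order `ℓ` -/
theorem exists_char {G Z : Type} [Group G] [Finite G] [Group Z] {ℓ : ℕ} [hp : Fact ℓ.Prime]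
    (hG : IsPGroup ℓ G) (hZ : IsCyclic Z) (hZc : Nat.card Z = ℓ) (H : Subgroup G) (hH : H ≠ ⊤) :
    ∃ χ : G →* Z, (∀ h ∈ H, χ h = 1) ∧ ∃ g, χ g ≠ 1 := by
  obtain ⟨M, hM, hHM⟩ := (eq_top_or_exists_le_coatom H).resolve_left hH
  have hnil : Group.IsNilpotent G := hG.isNilpotent
  have hMn : M.Normal := Subgroup.NormalizerCondition.normal_of_coatom M
    Group.normalizerCondition_of_isNilpotent hM
  -- the quotient has order `ℓ`
  have hQ : IsPGroup ℓ (G ⧸ M) := hG.to_quotient M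
  haveI : Nontrivial (G ⧸ M) := by
    rw [QuotientGroup.nontrivial_iff]
    exact hM.1
  obtain ⟨n, hn⟩ := IsPGroup.iff_card.1 hQ
  have hdvd : ℓ ∣ Nat.card (G ⧸ M) := by
    rw [hn]
    refine dvd_pow_self _ ?_
    rintro rfl
    rw [pow_zero] at hn
    have := (Finite.one_lt_card (α := G ⧸ M))
    omega
  obtain ⟨q, hq⟩ := exists_prime_orderOf_dvd_card' ℓ hdvd
  have htop : Subgroup.zpowers q = ⊤ := by
    have h1 : M < (Subgroup.zpowers q).comap (QuotientGroup.mk' M) := by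
      refine lt_of_le_of_ne (fun m hm => ?_) fun h => ?_
      · rw [Subgroup.mem_comap, QuotientGroup.mk'_apply, (QuotientGroup.eq_one_iff m).2 hm]
        exact one_mem _
      · obtain ⟨g, rfl⟩ := QuotientGroup.mk'_surjective M q
        have h2 : g ∈ M := by
          rw [h, Subgroup.mem_comap]
          exact Subgroup.mem_zpowers _
        rw [QuotientGroup.mk'_apply, (QuotientGroup.eq_one_iff g).2 h2, orderOf_one] at hq
        exact hp.out.one_lt.ne hq
    have h3 := hM.2 _ h1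
    rw [eq_top_iff]
    intro x _
    obtain ⟨g, rfl⟩ := QuotientGroup.mk'_surjective M x
    have h4 : g ∈ (Subgroup.zpowers q).comap (QuotientGroup.mk' M) := by rw [h3]; trivial
    exact h4
  have hcyc : IsCyclic (G ⧸ M) := ⟨q, fun x => by
    have : x ∈ (⊤ : Subgroup (G ⧸ M)) := trivial
    rwa [← htop] at this⟩
  have hcard : Nat.card (G ⧸ M) = Nat.card Z := by
    rw [hZc, ← hq, ← Nat.card_zpowers, htop, Subgroup.card_top]
  let e : (G ⧸ M) ≃* Z := mulEquivOfCyclicCardEq hcard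
  refine ⟨(e : (G ⧸ M) →* Z).comp (QuotientGroup.mk' M), fun h hh => ?_, ?_⟩
  · change e (QuotientGroup.mk' M h) = 1
    rw [QuotientGroup.mk'_apply, (QuotientGroup.eq_one_iff h).2 (hHM hh), map_one]
  · obtain ⟨g, hg⟩ := QuotientGroup.mk'_surjective M q
    refine ⟨g, fun h => ?_⟩
    change e (QuotientGroup.mk' M g) = 1 at h
    rw [hg] at h
    have h1 := (map_eq_one_iff e e.injective).1 h
    rw [h1, orderOf_one] at hq
    exact hp.out.one_lt.ne hq

section dec

variable {K κ : Type} [Field K] [NumberField K] [Field κ] [Algebra K κ] [IsAlgClosure K κ]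

/-- the group of the local automorphisms -/
def decGroup {K κ L C : Type} [Field K] [Field κ] [Algebra K κ] [Field L] [Field C]
    [Algebra L C] [Algebra K C] (ι : κ →ₐ[K] C) : Subgroup (κ ≃ₐ[K] κ) where
  carrier := {σ | DecL L ι σ}
  mul_mem' := by
    rintro σ σ' ⟨τ, hτ⟩ ⟨τ', hτ'⟩
    exact ⟨τ * τ', fun z => by
      rw [AlgEquiv.mul_apply, hτ, hτ', AlgEquiv.mul_apply]⟩
  one_mem' := ⟨1, fun z => rfl⟩
  inv_mem' := by
    rintro σ ⟨τ, hτ⟩
    refine ⟨τ⁻¹, fun z => ?_⟩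
    apply τ.injective
    rw [← hτ]
    change ι (σ (σ.symm z)) = τ (τ.symm (ι z))
    rw [σ.apply_symm_apply, τ.apply_symm_apply]

/-- **the decomposition group of `L` acts as the whole group on an `ℓ`-extension which is unramified at
the places in `S`** -/
theorem dec_all {ℓ : ℕ} [hp : Fact ℓ.Prime] {ζ : K} (hζ : IsPrimitiveRoot ζ ℓ)
    {Lv C : Type} [Field Lv] [Field C] [Algebra K Lv] [Algebra Lv C] [Algebra K C]
    [IsScalarTower K Lv C] [CharZero Lv] [IsAlgClosure Lv C]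
    {S : HeightOneSpectrum (𝓞 K) → Prop} (hS : ∀ v, S v → (ℓ : 𝓞 K) ∉ v.asIdeal)
    (hinj : LocPow ℓ Lv S) (ι : κ →ₐ[K] C) (M : IntermediateField K κ) [FiniteDimensional K M]
    [hMn : Normal K M]
    (hpow : ∀ σ : κ ≃ₐ[K] κ, ∃ n : ℕ, ∀ z ∈ M, (σ ^ (ℓ ^ n)) z = z)
    (hI : ∀ v : HeightOneSpectrum (𝓞 K), S v →
      ∃ V : ValuationSubring κ, Above v V ∧ ∀ σ : κ ≃ₐ[K] κ, Ine V σ → ∀ z ∈ M, σ z = z)
    (σ : κ ≃ₐ[K] κ) : ∃ δ, DecL Lv ι δ ∧ ∀ z ∈ M, δ z = σ z := by
  haveI : NeZero ℓ := ⟨hp.out.ne_zero⟩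
  have : Algebra.IsAlgebraic K κ := IsAlgClosure.isAlgebraic
  have : IsAlgClosed κ := IsAlgClosure.isAlgClosed K
  have : Normal K κ := IsAlgClosure.normal K κ
  have hζκ : IsPrimitiveRoot (algebraMap K κ ζ) ℓ := hζ.map_of_injective (algebraMap K κ).injective
  let r : (κ ≃ₐ[K] κ) →* (M ≃ₐ[K] M) := AlgEquiv.restrictNormalHom M
  have hr : ∀ (σ : κ ≃ₐ[K] κ) (z : M), ((r σ z : M) : κ) = σ z :=
    fun σ z => AlgEquiv.restrictNormalHom_apply M σ z
  have hrs : Function.Surjective r := AlgEquiv.restrictNormalHom_surjective κ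
  have hG : IsPGroup ℓ (M ≃ₐ[K] M) := by
    intro g
    obtain ⟨σ, rfl⟩ := hrs g
    obtain ⟨n, hn⟩ := hpow σ
    refine ⟨n, ?_⟩
    rw [← map_pow]
    ext z
    rw [hr, hn _ z.2]
    rfl
  have hZc : Nat.card (rootsOfUnity ℓ κ) = ℓ := hζκ.card_rootsOfUnity
  by_cases htop : (decGroup (L := Lv) ι).map r = ⊤
  · have h1 : r σ ∈ (decGroup (L := Lv) ι).map r := by rw [htop]; trivial
    obtain ⟨δ, hδ, hδσ⟩ := h1
    refine ⟨δ, hδ, fun z hz => ?_⟩
    have h2 := hr δ ⟨z, hz⟩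
    rw [hδσ, hr] at h2
    exact h2.symm
  exfalso
  obtain ⟨χ, hχ, g, hg⟩ := exists_char (Z := rootsOfUnity ℓ κ) hG inferInstance hZc _ htop
  obtain ⟨σ₀, hσ₀⟩ := hrs g
  have key := glbL hζ hS hinj ι (fun σ => ((χ (r σ) : κˣ) : κ))
    (fun σ => by
      have h1 := (χ (r σ)).2
      rw [mem_rootsOfUnity] at h1
      rw [← Units.val_pow_eq_pow_val, h1, Units.val_one])
    (fun σ τ => by
      rw [map_mul, map_mul, Subgroup.coe_mul, Units.val_mul])
    ⟨M, inferInstance, fun σ hσ => by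
      have h1 : r σ = 1 := by
        ext z
        rw [hr]
        rw [IntermediateField.mem_fixingSubgroup_iff] at hσ
        exact hσ z z.2
      rw [h1, map_one]
      rfl⟩
    (fun v hv => by
      obtain ⟨V, hV, hVM⟩ := hI v hv
      refine ⟨V, hV, fun σ hσ => ?_⟩
      have h1 : r σ = 1 := by
        ext z
        rw [hr]
        exact hVM σ hσ z z.2
      rw [h1, map_one]
      rfl)
    (fun σ hσ => by
      rw [hχ (r σ) ⟨σ, hσ, rfl⟩]
      rfl) σ₀
  apply hg
  rw [← hσ₀]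
  apply Subtype.ext
  apply Units.ext
  exact key

end dec

end Pool.Agent.K3h82.OT
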