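import Pool.Agent.K3h82.OT.Grp

/-!
# Local powers in an `ℓ`-extension
-/

set_option autoImplicit false
set_option linter.all false

open IsDedekindDomain NumberField Pool.Agent.Y157.PS

namespace Pool.Agent.K3h82.OT

open Pool.Agent.Y158.GR Pool.Agent.K3h82.OP
open Pool.Agent.Y158.FQ (exists_below)

section below

variable {K K' κ : Type} [Field K] [NumberField K] [Field K'] [NumberField K'] [Algebra K K']
  [Field κ] [Algebra K κ] [Algebra K' κ] [IsScalarTower K K' κ]

/-- the place of `K'` below a valuation ring of `κ` -/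
theorem above_of_below {w : HeightOneSpectrum (𝓞 K')} {V : ValuationSubring κ}
    (h : ∀ b : 𝓞 K', b ∈ w.asIdeal ↔ algebraMap K' κ (algebraMap (𝓞 K') K' b) ∈ V.nonunits) :
    Above w V := by
  -- elements outside of `w` are units
  have hU : ∀ d : 𝓞 K', d ∉ w.asIdeal → IsU V (algebraMap K' κ (algebraMap (𝓞 K') K' d)) := by
    intro d hd
    refine isU_of_not_nonunit (Pool.Agent.Y158.FQ.intE_mem V d) fun h1 => hd ((h d).2 h1)
  have key : ∀ z : K', w.valuation K' z ≤ 1 → algebraMap K' κ z ∈ V := by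
    intro z hz
    obtain ⟨n, d, hnd⟩ := w.exists_primeCompl_mul_eq_of_integer z hz
    have hd := hU d d.2
    have h1 : algebraMap K' κ z = algebraMap K' κ (algebraMap (𝓞 K') K' n) *
        (algebraMap K' κ (algebraMap (𝓞 K') K' d))⁻¹ := by
      rw [← hnd, map_mul, mul_assoc, mul_inv_cancel₀ hd.1, mul_one]
    rw [h1]
    exact mul_mem (Pool.Agent.Y158.FQ.intE_mem V n) hd.2.2
  intro z
  refine ⟨fun hz => ?_, key z⟩
  by_contra hc
  push Not at hc
  have hz0 : z ≠ 0 := by
    rintro rfl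
    rw [map_zero] at hc
    exact not_lt_zero hc
  have h1 : w.valuation K' z⁻¹ ≤ 1 := by
    rw [map_inv₀]
    exact (inv_lt_one_of_one_lt₀ hc).le
  obtain ⟨n, d, hnd⟩ := w.exists_primeCompl_mul_eq_of_integer z⁻¹ h1
  have hd := hU d d.2
  have hn : n ∈ w.asIdeal := by
    rw [← w.intValuation_lt_one_iff_mem, ← w.valuation_of_algebraMap (K := K')]
    change w.valuation K' (algebraMap (𝓞 K') K' n) < 1
    rw [← hnd, map_mul, map_inv₀]
    have h2 : w.valuation K' (algebraMap (𝓞 K') K' d) = 1 := by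
      rw [w.valuation_of_algebraMap, w.intValuation_eq_one_iff]
      exact d.2
    rw [h2, mul_one]
    exact inv_lt_one_of_one_lt₀ hc
  have h3 := (h n).1 hn
  have hz' : algebraMap K' κ z ≠ 0 := (_root_.map_ne_zero _).2 hz0
  have h4 : algebraMap K' κ (algebraMap (𝓞 K') K' d) =
      algebraMap K' κ z * algebraMap K' κ (algebraMap (𝓞 K') K' n) := by
    rw [← hnd, map_mul, map_inv₀, mul_inv_cancel_left₀ hz']
  refine hd.not_nonunit ?_
  rw [h4]
  exact Pool.Agent.Y748.PS.nu_mul hz h3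

theorem exists_above_below (V : ValuationSubring κ) {v : HeightOneSpectrum (𝓞 K)} (hV : Above v V) :
    ∃ w : HeightOneSpectrum (𝓞 K'), Above w V := by
  obtain ⟨a, ha, ha0⟩ := Submodule.exists_mem_ne_zero_of_ne_bot v.ne_bot
  have h1 := hV.ideal a ha
  obtain ⟨w, hw⟩ := exists_below (E := K') V (algebraMap (𝓞 K) (𝓞 K') a) (by
    intro h
    apply ha0
    have h1 : algebraMap (𝓞 K') K' (algebraMap (𝓞 K) (𝓞 K') a) = 0 := by rw [h, map_zero]
    rw [← IsScalarTower.algebraMap_apply (𝓞 K) (𝓞 K') K',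
      IsScalarTower.algebraMap_apply (𝓞 K) K K'] at h1
    have h2 := (map_eq_zero _).1 h1
    exact (map_eq_zero_iff _ (FaithfulSMul.algebraMap_injective (𝓞 K) K)).1 h2) (by
    rw [← IsScalarTower.algebraMap_apply (𝓞 K) (𝓞 K') K',
      IsScalarTower.algebraMap_apply (𝓞 K) K K', ← IsScalarTower.algebraMap_apply K K' κ]
    exact h1)
  exact ⟨w, above_of_below hw⟩

end below

/-- the elements which are fixed by an automorphism -/
def fixF {K κ : Type} [Field K] [Field κ] [Algebra K κ] (g : κ ≃ₐ[K] κ) : IntermediateField K κ where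
  carrier := {x | g x = x}
  mul_mem' := by
    intro a b ha hb
    change g (a * b) = a * b
    rw [map_mul, show g a = a from ha, show g b = b from hb]
  add_mem' := by
    intro a b ha hb
    change g (a + b) = a + b
    rw [map_add, show g a = a from ha, show g b = b from hb]
  algebraMap_mem' := fun c => g.commutes c
  inv_mem' := by
    intro a ha
    change g a⁻¹ = a⁻¹
    rw [map_inv₀, show g a = a from ha]

/-- an automorphism which fixes `y ^ ℓ` and the roots of unity -/
theorem pow_fix {K κ : Type} [Field K] [Field κ] [Algebra K κ] {ℓ : ℕ} (hℓ : ℓ ≠ 0)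
    (hμ : ∀ (σ : κ ≃ₐ[K] κ) (c : κ), c ^ ℓ = 1 → σ c = c) (g : κ ≃ₐ[K] κ) {y : κ}
    (hy : g (y ^ ℓ) = y ^ ℓ) : (g ^ ℓ) y = y := by
  by_cases hy0 : y = 0
  · rw [hy0, map_zero]
  have h1 : (g y / y) ^ ℓ = 1 := by
    rw [div_pow, ← map_pow, hy, div_self (pow_ne_zero _ hy0)]
  have h2 : ∀ n : ℕ, (g ^ n) y = (g y / y) ^ n * y := by
    intro n
    induction n with
    | zero => rw [pow_zero, pow_zero, one_mul]; rfl
    | succ n ih =>
      rw [pow_succ', AlgEquiv.mul_apply, ih, map_mul, map_pow, hμ g _ h1, pow_succ]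
      field_simp
  rw [h2, h1, one_mul]

section up

variable {K K' κ : Type} [Field K] [NumberField K] [Field K'] [NumberField K'] [Algebra K K']
  [Field κ] [Algebra K κ] [Algebra K' κ] [IsScalarTower K K' κ] [IsAlgClosure K κ]

/-- automorphisms over `K` of `κ` map `K'` to itself -/
theorem exists_img [Normal K K'] (ρ : κ ≃ₐ[K] κ) (z : K') :
    ∃ z' : K', ρ (algebraMap K' κ z) = algebraMap K' κ z' :=
  ⟨ρ.restrictNormal K' z, (AlgEquiv.restrictNormal_commutes ρ K' z).symm⟩

/-- **an element of `K'` which is a local `ℓ`-th power is an `ℓ`-th power** -/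
theorem locPow_up {ℓ : ℕ} [hp : Fact ℓ.Prime] {ζ : K} (hζ : IsPrimitiveRoot ζ ℓ)
    {L C : Type} [Field L] [Field C] [Algebra K L] [Algebra L C] [Algebra K C]
    [IsScalarTower K L C] [CharZero L] [IsAlgClosure L C] [Algebra K' C] [IsScalarTower K K' C]
    [hn : Normal K K'] {S : HeightOneSpectrum (𝓞 K) → Prop}
    (hS : ∀ v, S v → (ℓ : 𝓞 K) ∉ v.asIdeal) (hinj : LocPow ℓ L S)
    {S' : HeightOneSpectrum (𝓞 K') → Prop}
    (hSS' : ∀ v w (V : ValuationSubring κ), S v → Above v V → Above w V → S' w)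
    (hpow : ∀ σ : K' ≃ₐ[K] K', ∃ n : ℕ, σ ^ (ℓ ^ n) = 1)
    (hunr : ∀ v, S v → ∀ V : ValuationSubring κ, Above v V → ∀ σ : κ ≃ₐ[K] κ, Ine V σ →
      ∀ z : K', σ (algebraMap K' κ z) = algebraMap K' κ z)
    {L' : Type} [Field L'] [Algebra K' L'] [Algebra L' C] [IsScalarTower K' L' C]
    (hL' : ∀ τ : C ≃ₐ[L] C, (∀ z : K', τ (algebraMap K' C z) = algebraMap K' C z) →
      ∀ z : L', τ (algebraMap L' C z) = algebraMap L' C z) :
    LocPow ℓ L' S' := by
  intro a ha hval hz
  obtain ⟨z, hz⟩ := hz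
  have hℓ0 : ℓ ≠ 0 := hp.out.ne_zero
  haveI : NeZero ℓ := ⟨hℓ0⟩
  have : Algebra.IsAlgebraic K κ := IsAlgClosure.isAlgebraic
  have : IsAlgClosed κ := IsAlgClosure.isAlgClosed K
  have : IsAlgClosed C := IsAlgClosure.isAlgClosed L
  have : Normal K κ := IsAlgClosure.normal K κ
  have : CharZero κ := charZero_of_injective_algebraMap (algebraMap K κ).injective
  have : Algebra.IsAlgebraic K' κ := Algebra.IsAlgebraic.tower_top (K := K) K'
  have : IsAlgClosure K' κ := ⟨inferInstance, inferInstance⟩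
  have : Normal K' κ := IsAlgClosure.normal K' κ
  have : IsGalois K' κ := IsGalois.mk
  have hfd : FiniteDimensional K K' := Module.Finite.of_restrictScalars_finite ℚ K K'
  have hζκ : IsPrimitiveRoot (algebraMap K κ ζ) ℓ := hζ.map_of_injective (algebraMap K κ).injective
  have hμ : ∀ (σ : κ ≃ₐ[K] κ) (c : κ), c ^ ℓ = 1 → σ c = c := by
    intro σ c hc
    obtain ⟨i, -, hi⟩ := hζκ.eq_pow_of_pow_eq_one hc
    rw [← hi, map_pow, σ.commutes]
  obtain ⟨c, hc⟩ := IsAlgClosed.exists_pow_nat_eq (algebraMap K' κ a) hp.out.pos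
  let ι : κ →ₐ[K'] C := IsAlgClosed.lift
  let ιK : κ →ₐ[K] C := ι.restrictScalars K
  -- the field `M`
  let E₁ : IntermediateField K' κ := IntermediateField.adjoin K' {c}
  let E : IntermediateField K κ := E₁.restrictScalars K
  have hE₁ : FiniteDimensional K' E₁ := IntermediateField.adjoin.finiteDimensional
    (Algebra.IsAlgebraic.isAlgebraic (R := K') c).isIntegral
  have hE : FiniteDimensional K E := by
    have : FiniteDimensional K E₁ := Module.Finite.trans K' E₁
    exact this
  let M : IntermediateField K κ := IntermediateField.normalClosure K E κ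
  have hMfd : FiniteDimensional K M := normalClosure.is_finiteDimensional K E κ
  have hMn : Normal K M := normalClosure.normal K E κ
  have hcE : c ∈ E := IntermediateField.subset_adjoin K' _ rfl
  have hKE : ∀ z : K', algebraMap K' κ z ∈ E := fun z => E₁.algebraMap_mem z
  have hEM : E ≤ M := by
    have h1 : (IntermediateField.val E).fieldRange ≤ M :=
      (normalClosure_le_iff).1 le_rfl _
    rwa [IntermediateField.fieldRange_val] at h1
  -- automorphisms which are trivial on `M`
  have hfixM : ∀ g : κ ≃ₐ[K] κ, (∀ z : K', g (algebraMap K' κ z) = algebraMap K' κ z) →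
      (∀ ρ : κ ≃ₐ[K] κ, g (ρ c) = ρ c) → ∀ z ∈ M, g z = z := by
    intro g h1 h2 z hz
    have h3 : M ≤ fixF g := by
      refine normalClosure_le_iff.2 fun f => ?_
      obtain ⟨ρ, hρ⟩ : ∃ ρ : κ ≃ₐ[K] κ, ∀ x : E, ρ x = f x := by
        let f' : κ →ₐ[K] κ := f.liftNormal κ
        refine ⟨AlgEquiv.ofBijective f' (Algebra.IsAlgebraic.algHom_bijective f'), fun x => ?_⟩
        exact AlgHom.liftNormal_commutes f κ x
      rintro _ ⟨x, rfl⟩
      change g (f x) = f x
      rw [← hρ]
      let T : Subfield κ := RingHom.eqLocusField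
        (((g : κ →+* κ)).comp (ρ : κ →+* κ)) (ρ : κ →+* κ)
      have h4 : (x : κ) ∈ T := by
        refine adjoin_le_sub (K := K') (T := T) (fun q => ?_) (fun t ht => ?_) _ x.2
        · change g (ρ (algebraMap K' κ q)) = ρ (algebraMap K' κ q)
          obtain ⟨q', hq'⟩ := exists_img ρ q
          rw [hq', h1]
        · rw [Set.mem_singleton_iff] at ht
          rw [ht]
          exact h2 ρ
      exact h4
    exact h3 hz
  have hcpow : ∀ ρ : κ ≃ₐ[K] κ, ∃ a' : K', (ρ c) ^ ℓ = algebraMap K' κ a' := by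
    intro ρ
    obtain ⟨a', ha'⟩ := exists_img ρ a
    exact ⟨a', by rw [← map_pow, hc, ha']⟩
  -- the decomposition group
  have hdec := dec_all hζ hS hinj ιK M (fun σ => by
      obtain ⟨n, hn⟩ := hpow (σ.restrictNormal K')
      refine ⟨n + 1, ?_⟩
      have h1 : ∀ z : K', (σ ^ (ℓ ^ n)) (algebraMap K' κ z) = algebraMap K' κ z := by
        intro z
        have h2 : (σ ^ (ℓ ^ n)).restrictNormal K' = 1 := by
          have h3 := map_pow (AlgEquiv.restrictNormalHom (F := K) (K₁ := κ) K') σ (ℓ ^ n)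
          exact h3.trans hn
        have h4 := AlgEquiv.restrictNormal_commutes (σ ^ (ℓ ^ n)) K' z
        rw [h2] at h4
        exact h4.symm
      rw [pow_succ, pow_mul]
      refine hfixM _ (fun z => ?_) fun ρ => ?_
      · have h2 : σ ^ (ℓ ^ n) ∈ MulAction.stabilizer (κ ≃ₐ[K] κ) (algebraMap K' κ z) := h1 z
        exact (MulAction.stabilizer (κ ≃ₐ[K] κ) (algebraMap K' κ z)).pow_mem h2 ℓ
      · obtain ⟨a', ha'⟩ := hcpow ρ
        exact pow_fix hℓ0 hμ _ (by rw [ha', h1]))
    (fun v hv => by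
      obtain ⟨V, hV⟩ := exists_above (K := K) κ v
      refine ⟨V, hV, fun σ hσ => hfixM σ (hunr v hv V hV σ hσ) fun ρ => ?_⟩
      let V' : ValuationSubring κ := V.comap (ρ : κ →+* κ)
      have hV' : Above v V' := by
        intro q
        change ρ (algebraMap K κ q) ∈ V ↔ _
        rw [ρ.commutes]
        exact hV q
      let σ₁ : κ ≃ₐ[K] κ := ρ⁻¹ * σ * ρ
      have hσ₁ : ∀ x, ρ (σ₁ x) = σ (ρ x) := by
        intro x
        change ρ (ρ.symm (σ (ρ x))) = σ (ρ x)
        rw [ρ.apply_symm_apply]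
      have hI₁ : Ine V' σ₁ := by
        refine ⟨fun x => ?_, fun x hx => ?_⟩
        · change ρ (σ₁ x) ∈ V ↔ ρ x ∈ V
          rw [hσ₁]
          exact hσ.1 _
        · have h1 := hσ.2 (ρ x) hx
          rw [← hσ₁, ← map_sub] at h1
          rw [nonunits_iff] at h1 ⊢
          refine ⟨h1.1, ?_⟩
          rcases h1.2 with h2 | h2
          · exact Or.inl ((map_eq_zero _).1 h2)
          · refine Or.inr fun h3 => h2 ?_
            rw [← map_inv₀]
            exact h3
      obtain ⟨w, hw⟩ := exists_above_below (K' := K') V' hV'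
      have hSw := hSS' v w V' hv hV' hw
      have hℓw : (ℓ : 𝓞 K') ∉ w.asIdeal := by
        intro h1
        have h2 := hw.ideal _ h1
        have h3 := ell_unit hV' (hS v hv)
        apply h3.not_nonunit
        rw [map_natCast, map_natCast] at h2
        exact h2
      let σ₂ : κ ≃ₐ[K'] κ := AlgEquiv.ofRingEquiv (f := (σ₁ : κ ≃+* κ))
        (hunr v hv V' hV' σ₁ hI₁)
      have hI₂ : Ine V' σ₂ := hI₁
      have h5 : σ₂ c = c := root_ine hw hℓw ha (hval w hSw) (u := 1)
        (Pool.Agent.Y748.PS.isU_one) (by rw [mul_one, hc]) hI₂ (map_one _)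
      rw [← hσ₁]
      exact congrArg ρ h5)
  -- `c` is fixed
  have hcfix : ∀ σ : κ ≃ₐ[K'] κ, σ c = c := by
    intro σ
    obtain ⟨δ, ⟨τ, hτ⟩, hδ⟩ := hdec (σ.restrictScalars K)
    have h1 : ∀ z : K', τ (algebraMap K' C z) = algebraMap K' C z := by
      intro z
      have h2 := hτ (algebraMap K' κ z)
      rw [hδ _ (hEM (hKE z))] at h2
      change ι (σ (algebraMap K' κ z)) = τ (ι (algebraMap K' κ z)) at h2
      rw [σ.commutes, ι.commutes] at h2
      exact h2.symm
    have h3 := hL' τ h1 z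
    have hιc : (ι c) ^ ℓ = (algebraMap L' C z) ^ ℓ := by
      rw [← map_pow, hc, ι.commutes, ← map_pow, ← hz, ← IsScalarTower.algebraMap_apply]
    have hz0 : algebraMap L' C z ≠ 0 := by
      intro h
      rw [h, zero_pow hℓ0, ← map_pow, hc, ι.commutes] at hιc
      exact ha ((map_eq_zero _).1 hιc)
    have hζC : IsPrimitiveRoot (algebraMap K C ζ) ℓ :=
      hζ.map_of_injective (algebraMap K C).injective
    obtain ⟨i, -, hi⟩ := hζC.eq_pow_of_pow_eq_one (ξ := ι c / algebraMap L' C z) (by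
      rw [div_pow, hιc, div_self (pow_ne_zero _ hz0)])
    have hιc' : ι c = algebraMap K C ζ ^ i * algebraMap L' C z := by
      rw [hi, div_mul_cancel₀ _ hz0]
    have h4 : τ (ι c) = ι c := by
      rw [hιc', map_mul, map_pow, h3, IsScalarTower.algebraMap_apply K L C, τ.commutes]
    have h5 := hτ c
    change ι (δ c) = τ (ι c) at h5
    rw [h4] at h5
    have h6 := ι.injective h5
    rw [hδ c (hEM hcE)] at h6
    exact h6
  have h7 : c ∈ (⊥ : IntermediateField K' κ) := by
    rw [InfiniteGalois.mem_bot_iff_fixed]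
    exact hcfix
  obtain ⟨b, hb⟩ := IntermediateField.mem_bot.1 h7
  refine ⟨b, (algebraMap K' κ).injective ?_⟩
  rw [map_pow, hb, hc]

end up

end Pool.Agent.K3h82.OT
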