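import Pool.Agent.K3h82.OT.Sct
import Pool.Agent.K3h82.OT.Up

/-!
# Sections are determined by one place, for curves which split over a larger number field
-/

set_option autoImplicit false
set_option linter.all false

open Polynomial FF Pool.Agent.Y157.PS Pool.Agent.TH954 IsDedekindDomain NumberField

namespace Pool.Agent.K3h82.OT

open Pool.Agent.K3h82.BT Pool.Agent.K3h82.OP
open Pool.Agent.Y158.GR
open Pool.Agent.Y158.FQ (geomPro_base)

/-- local powers, for an embedding `i` of `K'` in `C` and the field `L K'` -/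
def LocAt {K K' C : Type} [Field K] [Field K'] [NumberField K'] [Field C] [Algebra K K']
    [Algebra K C] (ℓ : ℕ) (L : Type) [Field L] [Algebra L C] (i : K' →ₐ[K] C)
    (S : HeightOneSpectrum (𝓞 K') → Prop) : Prop :=
  ∀ a : K', a ≠ 0 → (∀ w, S w → ∃ t : WithZero (Multiplicative ℤ), w.valuation K' a = t ^ ℓ) →
    (∃ z ∈ IntermediateField.adjoin L (Set.range i), i a = z ^ ℓ) → ∃ b : K', a = b ^ ℓ

/-- the automorphisms of `K'` come from automorphisms of `C` over `L` -/
def AllAt {K K' C : Type} [Field K] [Field K'] [Field C] [Algebra K K']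
    [Algebra K C] (L : Type) [Field L] [Algebra L C] (i : K' →ₐ[K] C) : Prop :=
  ∀ σ : K' ≃ₐ[K] K', ∃ τ : C ≃ₐ[L] C, ∀ z, i (σ z) = τ (i z)

section core

variable {K K' : Type} [Field K] [NumberField K] [Field K'] [NumberField K'] [Algebra K K']
  {F Ω Bc : Type} [Field F] [Field Ω] [Field Bc]
  [Algebra K F] [Algebra F Ω] [Algebra K Ω] [Algebra K Bc] [IsScalarTower K F Ω] [IsAlgClosed Ω]
  [Algebra.IsAlgebraic F Ω] [IsAlgClosure K Bc] {ℓ : ℕ} [hp : Fact ℓ.Prime] {ζ : K'}
  {C L : Type} [Field C] [Field L] [Algebra L C] [Algebra K C] [Algebra K L]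
  [IsScalarTower K L C] [CharZero L] [IsAlgClosure L C]
  [Algebra K' Ω] [IsScalarTower K K' Ω] [Algebra K' Bc] [IsScalarTower K K' Bc]
  [Algebra K' C] [IsScalarTower K K' C]
  {L' : Type} [Field L'] [Algebra L L'] [Algebra K' L'] [Algebra L' C] [IsScalarTower L L' C]
  [IsScalarTower K' L' C] [CharZero L'] [IsAlgClosure L' C]

include hp in
theorem core (hζ : IsPrimitiveRoot ζ ℓ) {E : Finset K'} (hE : ℓ ∣ E.card ∨ ℓ ∣ E.card + 1)
    (h3 : 3 ≤ E.card + ninf ℓ E.card) {d : K} (hd : d ≠ 0) {f : K[X]}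
    (hf : f.map (algebraMap K K') = ∏ e ∈ E, (X - Polynomial.C e))
    (hinj : LocPow ℓ L' (GoodAt ℓ E (algebraMap K K' d))) (N : IntermediateField F Ω) (x y : N)
    (hx : Transcendental K (x : Ω))
    (hΩ : Algebra.IsAlgebraic (IntermediateField.adjoin K {(x : Ω)}) Ω)
    (hxy : algebraMap K Ω d * (y : Ω) ^ ℓ = aeval (x : Ω) f)
    (hN : ∀ z ∈ geomPro ℓ K (IntermediateField.adjoin K {(x : Ω), (y : Ω)}) Ω, z ∈ N)
    (s t : GalSection K F N Bc)
    (hsx : ∀ σ, s.s σ x = x) (hsy : ∀ σ, s.s σ y = y) (htx : ∀ σ, t.s σ x = x)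
    (hty : ∀ σ, t.s σ y = y)
    (hKs : ∀ c : K', ((s.j (algebraMap K' Bc c) : N) : Ω) = algebraMap K' Ω c) :
    (s.j = t.j → ∀ ι : Bc →ₐ[K] C, (∀ c : K', ι (algebraMap K' Bc c) = algebraMap K' C c) →
      (∀ σ, DecL L ι σ → ∀ z : N,
        (z : Ω) ∈ geomPro ℓ K (IntermediateField.adjoin K {(x : Ω), (y : Ω)}) Ω →
        s.s σ z = t.s σ z) →
      ∀ γ : Bc ≃ₐ[K'] Bc, ∀ z : N,
        (z : Ω) ∈ geomPro ℓ K (IntermediateField.adjoin K {(x : Ω), (y : Ω)}) Ω →
        s.s (γ.restrictScalars K) z = t.s (γ.restrictScalars K) z) ∧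
    (∀ p : Plc K N C, s.GivenBy L p →
      (∀ c : K', p.val (s.j (algebraMap K' Bc c)) (algebraMap K' C c)) →
      (∀ g : N, (g : Ω) ∈ IntermediateField.adjoin K {(x : Ω), (y : Ω)} → g ∈ p.W →
        ∃ c : K, p.val g (algebraMap K C c)) →
      ∀ γ : Bc ≃ₐ[K'] Bc, ∀ z : N,
        (z : Ω) ∈ geomPro ℓ K (IntermediateField.adjoin K {(x : Ω), (y : Ω)}) Ω →
        (s.s (γ.restrictScalars K) z ∈ p.W ↔ z ∈ p.W)) := by
  classical
  haveI : Algebra.IsAlgebraic K Bc := IsAlgClosure.isAlgebraic
  haveI : IsAlgClosed Bc := IsAlgClosure.isAlgClosed K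
  haveI : Algebra.IsAlgebraic K' Bc := Algebra.IsAlgebraic.tower_top (K := K) K'
  haveI : IsAlgClosure K' Bc := ⟨inferInstance, inferInstance⟩
  haveI : FiniteDimensional K K' := Module.Finite.of_restrictScalars_finite ℚ K K'
  have hd' : algebraMap K K' d ≠ 0 := (_root_.map_ne_zero _).2 hd
  have hgeo : ∀ z : Ω, z ∈ geomPro ℓ K' (IntermediateField.adjoin K' {(x : Ω), (y : Ω)}) Ω ↔
      z ∈ geomPro ℓ K (IntermediateField.adjoin K {(x : Ω), (y : Ω)}) Ω :=
    geomPro_base (k := K) (K := K') (F' := Ω) (X := (x : Ω)) (Y := (y : Ω))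
        (u := (x : Ω)) (w := (y : Ω)) (c := 1) (c' := 1)
        (one_mem _) (one_mem _) one_ne_zero one_ne_zero (by rw [one_mul]; rfl)
        (by rw [one_mul]; rfl)
  have hx' : Transcendental K' (x : Ω) := fun h => hx (h.restrictScalars K)
  have hΩ' : Algebra.IsAlgebraic (IntermediateField.adjoin K' {(x : Ω)}) Ω := by
    constructor
    intro z
    have h1 := hΩ.isAlgebraic z
    have hle : ∀ w ∈ IntermediateField.adjoin K {(x : Ω)},
        w ∈ IntermediateField.adjoin K' {(x : Ω)} := by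
      refine adjoin_le_sub (K := K) (T := (IntermediateField.adjoin K' {(x : Ω)}).toSubfield)
        (fun c => ?_) (fun u hu => IntermediateField.subset_adjoin K' _ hu)
      rw [IsScalarTower.algebraMap_apply K K' Ω]
      exact (IntermediateField.adjoin K' {(x : Ω)}).algebraMap_mem _
    let φ : IntermediateField.adjoin K {(x : Ω)} →+* IntermediateField.adjoin K' {(x : Ω)} :=
      { toFun := fun w => ⟨w.1, hle _ w.2⟩
        map_one' := rfl
        map_mul' := fun _ _ => rfl
        map_zero' := rfl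
        map_add' := fun _ _ => rfl }
    obtain ⟨q, hq0, hq⟩ := h1
    refine ⟨q.map φ, (Polynomial.map_ne_zero_iff φ.injective).2 hq0, ?_⟩
    rw [Polynomial.aeval_def, Polynomial.eval₂_map]
    exact hq
  have hfΩ : aeval (x : Ω) f = ∏ e ∈ E, ((x : Ω) - algebraMap K' Ω e) := by
    have h1 := congrArg (fun q : K'[X] => aeval (x : Ω) q) hf
    simp only [Polynomial.aeval_map_algebraMap] at h1
    rw [h1, map_prod]
    refine Finset.prod_congr rfl fun e _ => ?_
    rw [map_sub, aeval_X, aeval_C]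
  refine ⟨fun hj ι hι hD => ?_, fun p hpv hKC hpt => ?_⟩
  · obtain ⟨F', i1, i2, i3, i4, i5, N', e, s', t', he, hjs, hjt, hs, ht, hNN', -⟩ :=
      exists_base (C := C) L s t hKs (by rw [← hj]; exact hKs)
    have hj' : s'.j = t'.j := by
      apply AlgHom.ext
      intro b
      rw [hjs, hjt, hj]
    let ι' : Bc →ₐ[K'] C := { (ι : Bc →+* C) with commutes' := hι }
    have key := detN (K := K') hζ hE h3 hd' hinj N' (e x) (e y) (by rw [he]; exact hx')
      (by rw [he]; exact hΩ') (by
        apply (algebraMap N' Ω).injective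
        rw [map_mul, map_pow, map_prod]
        simp only [map_sub]
        have h1 : ∀ c : K', algebraMap N' Ω (algebraMap K' N' c) = algebraMap K' Ω c := fun c => rfl
        have h2 : ∀ z : N, algebraMap N' Ω (e z) = (z : Ω) := fun z => he z
        simp only [h1, h2]
        rw [← hfΩ, ← hxy, ← IsScalarTower.algebraMap_apply])
      (fun z hz => (hNN' z).2 (hN z ((hgeo z).1 (by rw [he, he] at hz; exact hz)))) s' t' hj'
      (fun σ => by rw [hs, hsx]) (fun σ => by rw [hs, hsy]) (fun σ => by rw [ht, htx])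
      (fun σ => by rw [ht, hty]) ι' (fun σ hσ z hz => by
        obtain ⟨z, rfl⟩ := e.surjective z
        rw [hs, ht]
        congr 1
        refine hD _ ?_ z ?_
        · obtain ⟨τ, hτ⟩ := hσ
          exact ⟨τ.restrictScalars L, fun w => hτ w⟩
        · rw [he, he, he] at hz
          exact (hgeo _).1 hz)
    intro γ z hz
    have h1 := key γ (e z) (by rw [he, he, he]; exact (hgeo _).2 hz)
    rw [hs, ht] at h1
    exact e.injective h1
  · obtain ⟨F', i1, i2, i3, i4, i5, N', e, s', -, he, hjs, -, hs, -, hNN', hP⟩ :=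
      exists_base (C := C) L s s hKs hKs
    obtain ⟨p', hpv', hval, hmem⟩ := hP p hpv hKC
    have hpv'' : s'.GivenBy L' p' := fun τ g h => hpv' (τ.restrictScalars L) g h
    -- the values
    let b := Module.finBasis K K'
    let T : Subfield N :=
      (IntermediateField.adjoin K {(x : Ω), (y : Ω)}).toSubfield.comap (algebraMap N Ω)
    have hxyN : ∀ g ∈ IntermediateField.adjoin K {(x : Ω), (y : Ω)}, g ∈ N := by
      refine adjoin_le_sub (K := K) (T := N.toSubfield) (fun c => ?_) (fun u hu => ?_)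
      · rw [IsScalarTower.algebraMap_apply K F Ω]
        exact N.algebraMap_mem _
      · rcases hu with hu | hu
        · rw [hu]; exact x.2
        · rw [Set.mem_singleton_iff] at hu
          rw [hu]; exact y.2
    have key := ptN (K := K') hζ hE h3 hd' hinj N' (e x) (e y) (by rw [he]; exact hx')
      (by rw [he]; exact hΩ') (by
        apply (algebraMap N' Ω).injective
        rw [map_mul, map_pow, map_prod]
        simp only [map_sub]
        have h1 : ∀ c : K', algebraMap N' Ω (algebraMap K' N' c) = algebraMap K' Ω c := fun c => rfl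
        have h2 : ∀ z : N, algebraMap N' Ω (e z) = (z : Ω) := fun z => he z
        simp only [h1, h2]
        rw [← hfΩ, ← hxy, ← IsScalarTower.algebraMap_apply])
      (fun z hz => (hNN' z).2 (hN z ((hgeo z).1 (by rw [he, he] at hz; exact hz)))) s'
      (fun σ => by rw [hs, hsx]) (fun σ => by rw [hs, hsy]) p' hpv'' (fun g hg hgW => by
        obtain ⟨g, rfl⟩ := e.surjective g
        rw [he, he, he] at hg
        rw [hmem] at hgW
        obtain ⟨q, hq, hqg⟩ := rep (K := K) (K' := K') {(x : Ω), (y : Ω)} b hg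
        obtain ⟨c, hc⟩ := val_up p (s.j.comp (IsScalarTower.toAlgHom K K' Bc))
          (IsScalarTower.toAlgHom K K' C) hKC T (fun g hg hgW => hpt g hg hgW) b
          (fun i => (⟨q i, hxyN _ (hq i)⟩ : N)) (fun i => hq i) (f := g) (by
            apply Subtype.ext
            rw [hqg]
            have h1 : ((∑ i, (s.j.comp (IsScalarTower.toAlgHom K K' Bc)) (b i) *
                (⟨q i, hxyN _ (hq i)⟩ : N) : N) : Ω) =
                ∑ i, (((s.j.comp (IsScalarTower.toAlgHom K K' Bc)) (b i) *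
                (⟨q i, hxyN _ (hq i)⟩ : N) : N) : Ω) := map_sum (algebraMap N Ω) _ _
            rw [h1]
            refine Finset.sum_congr rfl fun i _ => ?_
            rw [← hKs]
            rfl) hgW
        exact ⟨c, (hval _ _).2 hc⟩)
    intro γ z hz
    have h1 := key γ (e z) (by rw [he, he, he]; exact (hgeo _).2 hz)
    rw [hs, hmem, hmem] at h1
    exact h1

end core

end Pool.Agent.K3h82.OT
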