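import Pool.Agent.K3h82.OT.Main

/-!
# Sections are determined by one place, for curves which split over a larger number field (2)
-/

set_option autoImplicit false
set_option linter.all false

open Polynomial FF Pool.Agent.Y157.PS Pool.Agent.TH954 IsDedekindDomain NumberField

namespace Pool.Agent.K3h82.OT

open Pool.Agent.K3h82.BT Pool.Agent.K3h82.OP
open Pool.Agent.Y158.GR
open Pool.Agent.Y158.FQ (geomPro_base)

/-- the Galois group is the product of `G_{K'}` and the decomposition group -/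
theorem split_dec {K K' B C L : Type} [Field K] [Field K'] [Field B] [Field C] [Field L]
    [Algebra K K'] [Algebra K B] [Algebra K' B] [IsScalarTower K K' B] [Algebra K C] [Algebra L C]
    [Algebra K L] [IsScalarTower K L C] [Normal K K'] [Normal K B] (ι : B →ₐ[K] C)
    (i : K' →ₐ[K] C) (hi : ∀ c, i c = ι (algebraMap K' B c)) (h : AllAt L i) (σ : B ≃ₐ[K] B) :
    ∃ (γ : B ≃ₐ[K'] B) (δ : B ≃ₐ[K] B), DecL L ι δ ∧ σ = (γ.restrictScalars K) * δ := by
  obtain ⟨τ, hτ⟩ := h (σ.restrictNormal K')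
  obtain ⟨δ, hδ⟩ := exists_decL (L := L) ι τ
  have hσ : ∀ z : K', σ (algebraMap K' B z) = algebraMap K' B (σ.restrictNormal K' z) :=
    fun z => (AlgEquiv.restrictNormal_commutes σ K' z).symm
  have h1 : ∀ z : K', δ (algebraMap K' B z) = σ (algebraMap K' B z) := by
    intro z
    apply ι.injective
    change ι (δ _) = ι (σ _)
    rw [hδ, hσ, ← hi, ← hi, hτ]
  have h2 : ∀ z : K', (σ * δ⁻¹) (algebraMap K' B z) = algebraMap K' B z := by
    intro z
    obtain ⟨z', hz'⟩ := (σ.restrictNormal K').surjective z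
    have h3 : δ⁻¹ (algebraMap K' B z) = algebraMap K' B z' := by
      have h4 : δ (algebraMap K' B z') = algebraMap K' B z := by
        rw [h1, hσ, hz']
      rw [← h4]
      exact δ.symm_apply_apply _
    rw [AlgEquiv.mul_apply, h3, hσ, hz']
  refine ⟨AlgEquiv.ofRingEquiv (f := ((σ * δ⁻¹ : B ≃ₐ[K] B) : B ≃+* B)) h2, δ, ⟨τ, hδ⟩, ?_⟩
  have h3 : (AlgEquiv.ofRingEquiv (f := ((σ * δ⁻¹ : B ≃ₐ[K] B) : B ≃+* B)) h2).restrictScalars K =
      σ * δ⁻¹ := by
    ext z
    rfl
  rw [h3, inv_mul_cancel_right]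

section main

variable {K K' : Type} [Field K] [NumberField K] [Field K'] [NumberField K'] [Algebra K K']
  [hn : Normal K K'] {F Ω Bc : Type} [Field F] [Field Ω] [Field Bc]
  [Algebra K F] [Algebra F Ω] [Algebra K Ω] [Algebra K Bc] [IsScalarTower K F Ω] [IsAlgClosed Ω]
  [Algebra.IsAlgebraic F Ω] [IsAlgClosure K Bc] {ℓ : ℕ} [hp : Fact ℓ.Prime] {ζ : K'}
  {C L : Type} [Field C] [Field L] [Algebra L C] [Algebra K C] [Algebra K L]
  [IsScalarTower K L C] [CharZero L] [IsAlgClosure L C]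

include hp hn in
/-- **two sections which agree on one decomposition group are equal** -/
theorem detU (hζ : IsPrimitiveRoot ζ ℓ) {E : Finset K'} (hE : ℓ ∣ E.card ∨ ℓ ∣ E.card + 1)
    (h3 : 3 ≤ E.card + ninf ℓ E.card) {d : K} (hd : d ≠ 0) {f : K[X]}
    (hf : f.map (algebraMap K K') = ∏ e ∈ E, (X - Polynomial.C e))
    (hall : ∀ i : K' →ₐ[K] C, AllAt L i)
    (hloc : ∀ i : K' →ₐ[K] C, LocAt ℓ L i (GoodAt ℓ E (algebraMap K K' d)))
    (N : IntermediateField F Ω) (x y : N) (hx : Transcendental K (x : Ω))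
    (hΩ : Algebra.IsAlgebraic (IntermediateField.adjoin K {(x : Ω)}) Ω)
    (hxy : algebraMap K Ω d * (y : Ω) ^ ℓ = aeval (x : Ω) f)
    (hN : ∀ z ∈ geomPro ℓ K (IntermediateField.adjoin K {(x : Ω), (y : Ω)}) Ω, z ∈ N)
    (s t : GalSection K F N Bc)
    (hsx : ∀ σ, s.s σ x = x) (hsy : ∀ σ, s.s σ y = y) (htx : ∀ σ, t.s σ x = x)
    (hty : ∀ σ, t.s σ y = y) (hj : s.j = t.j) (ι : Bc →ₐ[K] C)
    (hD : ∀ σ, DecL L ι σ → ∀ z : N,
      (z : Ω) ∈ geomPro ℓ K (IntermediateField.adjoin K {(x : Ω), (y : Ω)}) Ω →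
      s.s σ z = t.s σ z) :
    ∀ σ, ∀ z : N, (z : Ω) ∈ geomPro ℓ K (IntermediateField.adjoin K {(x : Ω), (y : Ω)}) Ω →
      s.s σ z = t.s σ z := by
  classical
  haveI : Algebra.IsAlgebraic K Bc := IsAlgClosure.isAlgebraic
  haveI : IsAlgClosed Bc := IsAlgClosure.isAlgClosed K
  haveI : Normal K Bc := IsAlgClosure.normal K Bc
  haveI : FiniteDimensional K K' := Module.Finite.of_restrictScalars_finite ℚ K K'
  haveI : IsAlgClosed C := IsAlgClosure.isAlgClosed L
  haveI : Algebra.IsAlgebraic L C := IsAlgClosure.isAlgebraic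
  let φ : K' →ₐ[K] Bc := IsAlgClosed.lift
  letI iB : Algebra K' Bc := (φ : K' →+* Bc).toAlgebra
  haveI : IsScalarTower K K' Bc := IsScalarTower.of_algebraMap_eq fun c => (φ.commutes c).symm
  letI iΩ : Algebra K' Ω :=
    ((algebraMap N Ω).comp ((s.j : Bc →+* N).comp (φ : K' →+* Bc))).toAlgebra
  haveI : IsScalarTower K K' Ω := IsScalarTower.of_algebraMap_eq fun c => by
    change _ = ((s.j (φ (algebraMap K K' c)) : N) : Ω)
    rw [φ.commutes, s.j.commutes]
    rfl
  let i : K' →ₐ[K] C := ι.comp φ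
  letI iC : Algebra K' C := (i : K' →+* C).toAlgebra
  haveI : IsScalarTower K K' C := IsScalarTower.of_algebraMap_eq fun c => (i.commutes c).symm
  let L' : IntermediateField L C := IntermediateField.adjoin L (Set.range i)
  letI iL : Algebra K' L' := ((i : K' →+* C).codRestrict L'.toSubfield
    (fun c => IntermediateField.subset_adjoin L _ ⟨c, rfl⟩)).toAlgebra
  haveI : IsScalarTower K' L' C := IsScalarTower.of_algebraMap_eq fun c => rfl
  haveI : Algebra.IsAlgebraic L' C := Algebra.IsAlgebraic.tower_top (K := L) L'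
  haveI : IsAlgClosure L' C := ⟨inferInstance, inferInstance⟩
  have hinj : LocPow ℓ L' (GoodAt ℓ E (algebraMap K K' d)) := by
    rintro a ha hv ⟨z, hz⟩
    exact hloc i a ha hv ⟨z, z.2, congrArg Subtype.val hz⟩
  have key := (core hζ hE h3 hd hf hinj N x y hx hΩ hxy hN s t hsx hsy htx hty
    (fun c => rfl)).1 hj ι (fun c => rfl) hD
  intro σ z hz
  obtain ⟨γ, δ, hδ, rfl⟩ := split_dec (L := L) ι i (fun c => rfl) (hall i) σ
  have h1 : ∀ (u : GalSection K F N Bc), u.s (γ.restrictScalars K * δ) z =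
      u.s (γ.restrictScalars K) (u.s δ z) := by
    intro u
    rw [map_mul]
    rfl
  rw [h1, h1, hD δ hδ z hz]
  exact key γ _ (geo_stab (K := K) (t.s δ) (htx δ) (hty δ) z hz)

include hp hn in
/-- **a section which is locally given by a rational point is the section of this point** -/
theorem ptU (hζ : IsPrimitiveRoot ζ ℓ) {E : Finset K'} (hE : ℓ ∣ E.card ∨ ℓ ∣ E.card + 1)
    (h3 : 3 ≤ E.card + ninf ℓ E.card) {d : K} (hd : d ≠ 0) {f : K[X]}
    (hf : f.map (algebraMap K K') = ∏ e ∈ E, (X - Polynomial.C e))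
    (hall : ∀ i : K' →ₐ[K] C, AllAt L i)
    (hloc : ∀ i : K' →ₐ[K] C, LocAt ℓ L i (GoodAt ℓ E (algebraMap K K' d)))
    (N : IntermediateField F Ω) (x y : N) (hx : Transcendental K (x : Ω))
    (hΩ : Algebra.IsAlgebraic (IntermediateField.adjoin K {(x : Ω)}) Ω)
    (hxy : algebraMap K Ω d * (y : Ω) ^ ℓ = aeval (x : Ω) f)
    (hN : ∀ z ∈ geomPro ℓ K (IntermediateField.adjoin K {(x : Ω), (y : Ω)}) Ω, z ∈ N)
    (s : GalSection K F N Bc)
    (hsx : ∀ σ, s.s σ x = x) (hsy : ∀ σ, s.s σ y = y) (p : Plc K N C) (hpv : s.GivenBy L p)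
    (hpt : ∀ g : N, (g : Ω) ∈ IntermediateField.adjoin K {(x : Ω), (y : Ω)} → g ∈ p.W →
      ∃ c : K, p.val g (algebraMap K C c)) :
    ∀ σ, ∀ z : N, (z : Ω) ∈ geomPro ℓ K (IntermediateField.adjoin K {(x : Ω), (y : Ω)}) Ω →
      (s.s σ z ∈ p.W ↔ z ∈ p.W) := by
  classical
  haveI : Algebra.IsAlgebraic K Bc := IsAlgClosure.isAlgebraic
  haveI : IsAlgClosed Bc := IsAlgClosure.isAlgClosed K
  haveI : Normal K Bc := IsAlgClosure.normal K Bc
  haveI : FiniteDimensional K K' := Module.Finite.of_restrictScalars_finite ℚ K K'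
  haveI : IsAlgClosed C := IsAlgClosure.isAlgClosed L
  haveI : Algebra.IsAlgebraic L C := IsAlgClosure.isAlgebraic
  let φ : K' →ₐ[K] Bc := IsAlgClosed.lift
  letI iB : Algebra K' Bc := (φ : K' →+* Bc).toAlgebra
  haveI : IsScalarTower K K' Bc := IsScalarTower.of_algebraMap_eq fun c => (φ.commutes c).symm
  letI iΩ : Algebra K' Ω :=
    ((algebraMap N Ω).comp ((s.j : Bc →+* N).comp (φ : K' →+* Bc))).toAlgebra
  haveI : IsScalarTower K K' Ω := IsScalarTower.of_algebraMap_eq fun c => by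
    change _ = ((s.j (φ (algebraMap K K' c)) : N) : Ω)
    rw [φ.commutes, s.j.commutes]
    rfl
  let ι : Bc →ₐ[K] C := p.iot s.j
  let i : K' →ₐ[K] C := ι.comp φ
  letI iC : Algebra K' C := (i : K' →+* C).toAlgebra
  haveI : IsScalarTower K K' C := IsScalarTower.of_algebraMap_eq fun c => (i.commutes c).symm
  let L' : IntermediateField L C := IntermediateField.adjoin L (Set.range i)
  letI iL : Algebra K' L' := ((i : K' →+* C).codRestrict L'.toSubfield
    (fun c => IntermediateField.subset_adjoin L _ ⟨c, rfl⟩)).toAlgebra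
  haveI : IsScalarTower K' L' C := IsScalarTower.of_algebraMap_eq fun c => rfl
  haveI : Algebra.IsAlgebraic L' C := Algebra.IsAlgebraic.tower_top (K := L) L'
  haveI : IsAlgClosure L' C := ⟨inferInstance, inferInstance⟩
  have hinj : LocPow ℓ L' (GoodAt ℓ E (algebraMap K K' d)) := by
    rintro a ha hv ⟨z, hz⟩
    exact hloc i a ha hv ⟨z, z.2, congrArg Subtype.val hz⟩
  have key := (core hζ hE h3 hd hf hinj N x y hx hΩ hxy hN s s hsx hsy hsx hsy
    (fun c => rfl)).2 p hpv (fun c => iot_val s p _) hpt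
  intro σ z hz
  obtain ⟨γ, δ, hδ, rfl⟩ := split_dec (L := L) ι i (fun c => rfl) (hall i) σ
  have h1 : s.s (γ.restrictScalars K * δ) z = s.s (γ.restrictScalars K) (s.s δ z) := by
    rw [map_mul]
    rfl
  rw [h1, key γ _ (geo_stab (K := K) (s.s δ) (hsx δ) (hsy δ) z hz)]
  exact given_mem hpv hδ z

end main

end Pool.Agent.K3h82.OT
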