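import Pool.Agent.K3h82.OT.Val

/-!
# Restriction of a section to a larger number field
-/

set_option autoImplicit false
set_option linter.all false

open Polynomial FF Pool.Agent.Y157.PS Pool.Agent.TH954 IsDedekindDomain NumberField

namespace Pool.Agent.K3h82.OT

open Pool.Agent.K3h82.BT Pool.Agent.K3h82.OP
open Pool.Agent.Y158.GR
open Pool.Agent.Y158.FQ (extSec extSec_apply extPlc extPlc_val extPlc_mem extGiven geomPro_base
  geomPro_map geomF_le)

section stab

variable {K F Ω : Type} [Field K] [Field F] [Field Ω] [Algebra K F] [Algebra F Ω] [Algebra K Ω]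
  [IsScalarTower K F Ω] [IsAlgClosed Ω] [Algebra.IsAlgebraic F Ω]

/-- the tower is stable under the automorphisms which fix `x` and `y` -/
theorem geo_stab {ℓ : ℕ} {N : IntermediateField F Ω} {x y : N} (g : N ≃ₐ[F] N) (hx : g x = x)
    (hy : g y = y) (z : N)
    (hz : (z : Ω) ∈ geomPro ℓ K (IntermediateField.adjoin K {(x : Ω), (y : Ω)}) Ω) :
    ((g z : N) : Ω) ∈ geomPro ℓ K (IntermediateField.adjoin K {(x : Ω), (y : Ω)}) Ω := by
  haveI : Algebra.IsAlgebraic N Ω := Algebra.IsAlgebraic.tower_top (K := F) N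
  haveI : IsAlgClosure N Ω := ⟨inferInstance, inferInstance⟩
  let ψ : Ω ≃+* Ω := IsAlgClosure.equivOfEquiv Ω Ω (g : N ≃+* N)
  have hψ : ∀ w : N, ψ (w : Ω) = ((g w : N) : Ω) := fun w =>
    IsAlgClosure.equivOfEquiv_algebraMap Ω Ω (g : N ≃+* N) w
  have hψK : ∀ c : K, ψ (algebraMap K Ω c) = algebraMap K Ω c := by
    intro c
    rw [IsScalarTower.algebraMap_apply K F Ω]
    have h1 := hψ (algebraMap F N (algebraMap K F c))
    rw [g.commutes] at h1
    exact h1
  let ψK : Ω ≃ₐ[K] Ω := AlgEquiv.ofRingEquiv (f := ψ) hψK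
  have hacl : ∀ w ∈ algebraicClosure K Ω, ψ w ∈ algebraicClosure K Ω := by
    intro w hw
    rw [mem_algebraicClosure_iff] at hw ⊢
    exact hw.algHom (ψK : Ω →ₐ[K] Ω)
  have hacl' : ∀ w ∈ algebraicClosure K Ω, ψ.symm w ∈ algebraicClosure K Ω := by
    intro w hw
    rw [mem_algebraicClosure_iff] at hw ⊢
    exact hw.algHom (ψK.symm : Ω →ₐ[K] Ω)
  have hfix : ∀ w ∈ IntermediateField.adjoin K {(x : Ω), (y : Ω)}, ψ w = w := by
    intro w hw
    let T : Subfield Ω := RingHom.eqLocusField (ψ : Ω →+* Ω) (RingHom.id Ω)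
    have h1 : w ∈ T := by
      refine adjoin_le_sub (K := K) (T := T) (fun c => hψK c) (fun u hu => ?_) w hw
      rcases hu with hu | hu
      · rw [hu]
        exact (hψ x).trans (by rw [hx]; rfl)
      · rw [Set.mem_singleton_iff] at hu
        rw [hu]
        exact (hψ y).trans (by rw [hy]; rfl)
    exact h1
  have hfix' : ∀ w ∈ IntermediateField.adjoin K {(x : Ω), (y : Ω)}, ψ.symm w = w := by
    intro w hw
    rw [RingEquiv.symm_apply_eq]
    exact (hfix w hw).symm
  rw [← hψ]
  refine geomPro_map ψ (geomF_le ψ hacl fun w => ?_) (geomF_le ψ.symm hacl' fun w => ?_)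
    (fun W hW c => ?_) _ hz
  · change ψ (w : Ω) ∈ _
    rw [hfix _ w.2]
    exact (geomF K (IntermediateField.adjoin K {(x : Ω), (y : Ω)}) Ω).algebraMap_mem w
  · change ψ.symm (w : Ω) ∈ _
    rw [hfix' _ w.2]
    exact (geomF K (IntermediateField.adjoin K {(x : Ω), (y : Ω)}) Ω).algebraMap_mem w
  · rw [hψK]
    exact hW c

end stab

section base

variable {K K' F Ω B : Type} [Field K] [Field K'] [Field F] [Field Ω] [Field B] [Algebra K K']
  [Algebra K F] [Algebra F Ω] [Algebra K Ω] [IsScalarTower K F Ω] [Algebra K' Ω]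
  [IsScalarTower K K' Ω] [Algebra K B] [Algebra K' B] [IsScalarTower K K' B]
  [Algebra.IsAlgebraic K B] [Algebra.IsAlgebraic F Ω]

/-- restriction of a section and of a place to a larger field of constants -/
theorem exists_base {C : Type} [Field C] [Algebra K C] [Algebra K' C] [IsScalarTower K K' C]
    (L : Type) [Field L] [Algebra L C]
    {N : IntermediateField F Ω} (s t : GalSection K F N B)
    (hs : ∀ c : K', ((s.j (algebraMap K' B c) : N) : Ω) = algebraMap K' Ω c)
    (ht : ∀ c : K', ((t.j (algebraMap K' B c) : N) : Ω) = algebraMap K' Ω c) :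
    ∃ (F' : Type) (_ : Field F') (_ : Algebra K' F') (_ : Algebra F' Ω)
      (_ : IsScalarTower K' F' Ω) (_ : Algebra.IsAlgebraic F' Ω) (N' : IntermediateField F' Ω)
      (e : N ≃+* N') (s' t' : GalSection K' F' N' B),
      (∀ z : N, ((e z : N') : Ω) = (z : Ω)) ∧ (∀ b, s'.j b = e (s.j b)) ∧
      (∀ b, t'.j b = e (t.j b)) ∧
      (∀ (g : B ≃ₐ[K'] B) z, s'.s g (e z) = e (s.s (g.restrictScalars K) z)) ∧
      (∀ (g : B ≃ₐ[K'] B) z, t'.s g (e z) = e (t.s (g.restrictScalars K) z)) ∧
      (∀ z, z ∈ N' ↔ z ∈ N) ∧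
      ∀ p : Plc K N C, s.GivenBy L p →
        (∀ c : K', p.val (s.j (algebraMap K' B c)) (algebraMap K' C c)) →
        ∃ p' : Plc K' N' C, s'.GivenBy L p' ∧ (∀ z c, p'.val (e z) c ↔ p.val z c) ∧
          ∀ z, e z ∈ p'.W ↔ z ∈ p.W := by
  let F' : IntermediateField F Ω := IntermediateField.adjoin F (Set.range (algebraMap K' Ω))
  have hF'N : F' ≤ N := by
    rw [IntermediateField.adjoin_le_iff]
    rintro _ ⟨c, rfl⟩
    rw [← hs]
    exact (s.j (algebraMap K' B c)).2
  haveI hF'Ω : Algebra.IsAlgebraic F' Ω := Algebra.IsAlgebraic.tower_top (K := F) F'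
  letI ikF : Algebra K' F' := ((algebraMap K' Ω).codRestrict F'.toSubfield
    (fun c => IntermediateField.subset_adjoin F _ ⟨c, rfl⟩)).toAlgebra
  haveI : IsScalarTower K' F' Ω := IsScalarTower.of_algebraMap_eq fun c => rfl
  let N' : IntermediateField F' Ω := IntermediateField.extendScalars hF'N
  have hNN' : ∀ z, z ∈ N' ↔ z ∈ N := fun z => IntermediateField.mem_extendScalars hF'N
  let e : N ≃+* N' :=
    { toFun := fun z => ⟨(z : Ω), (hNN' _).2 z.2⟩
      invFun := fun z => ⟨(z : Ω), (hNN' _).1 z.2⟩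
      left_inv := fun z => rfl
      right_inv := fun z => rfl
      map_mul' := fun _ _ => rfl
      map_add' := fun _ _ => rfl }
  have he : ∀ z : N, ((e z : N') : Ω) = (z : Ω) := fun z => rfl
  have hfix : ∀ (s : GalSection K F N B)
      (hs : ∀ c : K', ((s.j (algebraMap K' B c) : N) : Ω) = algebraMap K' Ω c)
      (r : F') (g : B ≃ₐ[K'] B) (z : N), (z : Ω) = algebraMap F' Ω r →
      s.s (g.restrictScalars K) z = z := by
    intro s hs r g z hz
    let T : Subfield Ω := Subfield.map (algebraMap N Ω)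
      (RingHom.eqLocusField ((s.s (g.restrictScalars K) : N ≃ₐ[F] N) : N →+* N) (RingHom.id N))
    have hT : ∀ t : N, s.s (g.restrictScalars K) t = t → (t : Ω) ∈ T := fun t ht => ⟨t, ht, rfl⟩
    have h1 : (r : Ω) ∈ T := by
      refine adjoin_le_sub (T := T) (fun q => ?_) (fun t ht => ?_) _ r.2
      · exact hT (algebraMap F N q) ((s.s (g.restrictScalars K)).commutes q)
      · obtain ⟨c, rfl⟩ := ht
        rw [← hs]
        refine hT _ ?_
        rw [s.sec]
        congr 1
        exact g.commutes c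
    obtain ⟨t, ht, htr⟩ := h1
    have h2 : t = z := Subtype.ext (htr.trans hz.symm)
    rw [← h2]
    exact ht
  refine ⟨F', inferInstance, ikF, inferInstance, inferInstance, hF'Ω, N', e,
    extSec e he s hs (hfix s hs), extSec e he t ht (hfix t ht), he, fun b => rfl, fun b => rfl,
    fun g z => extSec_apply e he s hs (hfix s hs) g z,
    fun g z => extSec_apply e he t ht (hfix t ht) g z, hNN', ?_⟩
  intro p hpv hKC
  refine ⟨extPlc e he s p hs hKC, extGiven e he s p hs hKC (hfix s hs) L hpv, fun z c => ?_,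
    fun z => ?_⟩
  · rw [extPlc_val, e.symm_apply_apply]
  · rw [extPlc_mem, e.symm_apply_apply]

end base

end Pool.Agent.K3h82.OT
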