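import Pool.Agent.K3h82.OT.Main2

/-!
# The conditions for curves which split over an `ℓ`-extension
-/

set_option autoImplicit false
set_option linter.all false

open Polynomial Pool.Agent.Y157.PS IsDedekindDomain NumberField

namespace Pool.Agent.K3h82.OT

open Pool.Agent.K3h82.OP Pool.Agent.Y158.GR

/-- roots of a polynomial which is separable modulo an ideal -/
theorem fix_root {R : Type} [CommRing R] [IsDomain R] (m : Ideal R) (hm : m ≠ ⊤) {f u w : R[X]}
    (h : u * f + w * derivative f = 1) {a b : R} (ha : f.eval a = 0) (hb : f.eval b = 0)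
    (hab : a - b ∈ m) : a = b := by
  by_contra hne
  obtain ⟨g, hg⟩ := dvd_iff_isRoot.2 (show f.IsRoot a from ha)
  have h1 : g.eval b = 0 := by
    rw [hg, eval_mul, eval_sub, eval_X, eval_C] at hb
    exact (mul_eq_zero.1 hb).resolve_left (sub_ne_zero.2 fun h => hne h.symm)
  have h2 : g.eval a ∈ m := by
    obtain ⟨c, hc⟩ := sub_dvd_eval_sub a b g
    rw [h1, sub_zero] at hc
    rw [hc]
    exact Ideal.mul_mem_right _ _ hab
  have h3 : (derivative f).eval a = g.eval a := by
    rw [hg, derivative_mul, eval_add, eval_mul, eval_mul, eval_sub, eval_X, eval_C, sub_self,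
      zero_mul, add_zero, derivative_sub, derivative_X, derivative_C, sub_zero, eval_one, one_mul]
  have h4 := congrArg (fun q : R[X] => q.eval a) h
  simp only [eval_add, eval_mul, eval_one, ha, mul_zero, zero_add, h3] at h4
  exact hm ((Ideal.eq_top_iff_one _).2 (by rw [← h4]; exact Ideal.mul_mem_left _ _ h2))

section poly

variable {K : Type} [Field K] [NumberField K]

/-- the coefficients are integral at `v` -/
def IntAt (v : HeightOneSpectrum (𝓞 K)) (q : K[X]) : Prop := ∀ n, v.valuation K (q.coeff n) ≤ 1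

/-- `f` is integral at `v` and separable modulo `v` -/
def SepAt (v : HeightOneSpectrum (𝓞 K)) (f : K[X]) : Prop :=
  IntAt v f ∧ ∃ u w : K[X], IntAt v u ∧ IntAt v w ∧ u * f + w * derivative f = 1

variable {κ : Type} [Field κ] [Algebra K κ]

/-- a polynomial which is integral at `v` has coefficients in a valuation ring above `v` -/
theorem lift_int {v : HeightOneSpectrum (𝓞 K)} {V : ValuationSubring κ} (hV : Above v V) {q : K[X]}
    (hq : IntAt v q) : ∃ q' : V[X], q'.map (algebraMap V κ) = q.map (algebraMap K κ) := by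
  have h1 : q.map (algebraMap K κ) ∈ Polynomial.lifts (algebraMap V κ) := by
    rw [Polynomial.lifts_iff_coeff_lifts]
    intro n
    rw [coeff_map]
    exact ⟨⟨algebraMap K κ (q.coeff n), (hV _).2 (hq n)⟩, rfl⟩
  rw [Polynomial.mem_lifts] at h1
  exact h1

theorem root_facts {v : HeightOneSpectrum (𝓞 K)} {V : ValuationSubring κ} (hV : Above v V)
    {f : K[X]} (hm : f.Monic) (hf : SepAt v f) :
    (∀ e : κ, aeval e f = 0 → e ∈ V) ∧
    (∀ e e' : κ, aeval e f = 0 → aeval e' f = 0 → e - e' ∈ V.nonunits → e = e') := by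
  obtain ⟨hf1, u, w, hu, hw, h⟩ := hf
  obtain ⟨f', hf'⟩ := lift_int hV hf1
  obtain ⟨u', hu'⟩ := lift_int hV hu
  obtain ⟨w', hw'⟩ := lift_int hV hw
  have hinj : Function.Injective (algebraMap V κ) := IsFractionRing.injective V κ
  have hm' : f'.Monic := by
    apply Polynomial.monic_of_injective hinj
    rw [hf']
    exact hm.map _
  have hev : ∀ e : V, aeval (e : κ) f = algebraMap V κ (f'.eval e) := by
    intro e
    rw [← Polynomial.eval_map_algebraMap, ← hf']
    exact Polynomial.eval_map_apply (algebraMap V κ) e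
  have hbez : u' * f' + w' * derivative f' = 1 := by
    apply Polynomial.map_injective _ hinj
    rw [Polynomial.map_add, Polynomial.map_mul, Polynomial.map_mul, ← Polynomial.derivative_map,
      hf', hu', hw', Polynomial.derivative_map, ← Polynomial.map_mul, ← Polynomial.map_mul,
      ← Polynomial.map_add, h, Polynomial.map_one, Polynomial.map_one]
  have hint : ∀ e : κ, aeval e f = 0 → e ∈ V := by
    intro e he
    have h1 : IsIntegral V e := by
      refine ⟨f', hm', ?_⟩
      rw [← Polynomial.eval_map, hf', Polynomial.eval_map_algebraMap]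
      exact he
    obtain ⟨y, hy⟩ := IsIntegrallyClosed.isIntegral_iff.1 h1
    rw [← hy]
    exact y.2
  refine ⟨hint, fun e e' he he' hee => ?_⟩
  have h1 := fix_root (IsLocalRing.maximalIdeal V) (IsLocalRing.maximalIdeal.isMaximal V).ne_top hbez
    (a := ⟨e, hint e he⟩) (b := ⟨e', hint e' he'⟩) (hinj (by
      rw [← hev, map_zero]
      exact he)) (hinj (by
      rw [← hev, map_zero]
      exact he')) ((ValuationSubring.coe_mem_nonunits_iff
        (A := V) (a := ⟨e, hint e he⟩ - ⟨e', hint e' he'⟩)).1 hee)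
  exact congrArg Subtype.val h1

end poly

/-- the product over the roots -/
theorem split_prod {K K' : Type} [Field K] [Field K'] [Algebra K K'] [DecidableEq K'] {f : K[X]}
    (hf : f.Monic) (hs : f.Separable) (hsp : (f.map (algebraMap K K')).Splits) :
    f.map (algebraMap K K') =
      ∏ e ∈ (f.map (algebraMap K K')).roots.toFinset, (X - C e) := by
  have h1 := hsp.eq_prod_roots
  rw [(hf.map _).leadingCoeff, C_1, one_mul] at h1
  have h2 : (f.map (algebraMap K K')).roots.Nodup := nodup_roots (hs.map)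
  conv_lhs => rw [h1]
  rw [Finset.prod, Multiset.toFinset_val, Multiset.dedup_eq_self.2 h2]

section tower

variable {K K' κ : Type} [Field K] [NumberField K] [Field K'] [NumberField K'] [Algebra K K']
  [Field κ] [Algebra K κ] [Algebra K' κ] [IsScalarTower K K' κ] [IsAlgClosure K κ]
  {C L : Type} [Field C] [Field L] [Algebra L C] [Algebra K C] [Algebra K L]
  [IsScalarTower K L C] [CharZero L] [IsAlgClosure L C]

/-- the decomposition group is everything -/
theorem allAt_up {ℓ : ℕ} [hp : Fact ℓ.Prime] {ζ : K} (hζ : IsPrimitiveRoot ζ ℓ)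
    [hn : Normal K K'] {S : HeightOneSpectrum (𝓞 K) → Prop}
    (hS : ∀ v, S v → (ℓ : 𝓞 K) ∉ v.asIdeal) (hinj : LocPow ℓ L S)
    (hpow : ∀ σ : K' ≃ₐ[K] K', ∃ n : ℕ, σ ^ (ℓ ^ n) = 1)
    (hunr : ∀ v, S v → ∀ V : ValuationSubring κ, Above v V → ∀ σ : κ ≃ₐ[K] κ, Ine V σ →
      ∀ z : K', σ (algebraMap K' κ z) = algebraMap K' κ z) (i : K' →ₐ[K] C) : AllAt L i := by
  have : Algebra.IsAlgebraic K κ := IsAlgClosure.isAlgebraic
  have : IsAlgClosed κ := IsAlgClosure.isAlgClosed K
  have : IsAlgClosed C := IsAlgClosure.isAlgClosed L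
  have : Normal K κ := IsAlgClosure.normal K κ
  have : Algebra.IsAlgebraic K' κ := Algebra.IsAlgebraic.tower_top (K := K) K'
  have hfd : FiniteDimensional K K' := Module.Finite.of_restrictScalars_finite ℚ K K'
  letI iC : Algebra K' C := (i : K' →+* C).toAlgebra
  haveI : IsScalarTower K K' C := IsScalarTower.of_algebraMap_eq fun c => (i.commutes c).symm
  let ι : κ →ₐ[K'] C := IsAlgClosed.lift
  let ιK : κ →ₐ[K] C := ι.restrictScalars K
  let j : K' →ₐ[K] κ := IsScalarTower.toAlgHom K K' κ
  let M : IntermediateField K κ := j.fieldRange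
  let eM : K' ≃ₐ[K] M := AlgEquiv.ofInjectiveField j
  have hMfd : FiniteDimensional K M := Module.Finite.equiv eM.toLinearEquiv
  have hMn : Normal K M := Normal.of_algEquiv eM
  intro σ'
  obtain ⟨δ, ⟨τ, hτ⟩, hδ⟩ := dec_all hζ hS hinj ιK M (fun σ => by
      obtain ⟨n, hn⟩ := hpow (σ.restrictNormal K')
      refine ⟨n, ?_⟩
      rintro _ ⟨z, rfl⟩
      have h2 : (σ ^ (ℓ ^ n)).restrictNormal K' = 1 := by
        have h3 := map_pow (AlgEquiv.restrictNormalHom (F := K) (K₁ := κ) K') σ (ℓ ^ n)
        exact h3.trans hn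
      have h4 := AlgEquiv.restrictNormal_commutes (σ ^ (ℓ ^ n)) K' z
      rw [h2] at h4
      exact h4.symm)
    (fun v hv => by
      obtain ⟨V, hV⟩ := exists_above (K := K) κ v
      refine ⟨V, hV, fun σ hσ => ?_⟩
      rintro _ ⟨z, rfl⟩
      exact hunr v hv V hV σ hσ z) (σ'.liftNormal κ)
  refine ⟨τ, fun z => ?_⟩
  have h1 := hτ (algebraMap K' κ z)
  rw [hδ (algebraMap K' κ z) ⟨z, rfl⟩, AlgEquiv.liftNormal_commutes] at h1
  change ι (algebraMap K' κ (σ' z)) = τ (ι (algebraMap K' κ z)) at h1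
  rw [ι.commutes, ι.commutes] at h1
  exact h1

/-- local powers in the field `L K'` -/
theorem locAt_up {ℓ : ℕ} [hp : Fact ℓ.Prime] {ζ : K} (hζ : IsPrimitiveRoot ζ ℓ)
    [hn : Normal K K'] {S : HeightOneSpectrum (𝓞 K) → Prop}
    (hS : ∀ v, S v → (ℓ : 𝓞 K) ∉ v.asIdeal) (hinj : LocPow ℓ L S)
    {S' : HeightOneSpectrum (𝓞 K') → Prop}
    (hSS' : ∀ v w (V : ValuationSubring κ), S v → Above v V → Above w V → S' w)
    (hpow : ∀ σ : K' ≃ₐ[K] K', ∃ n : ℕ, σ ^ (ℓ ^ n) = 1)
    (hunr : ∀ v, S v → ∀ V : ValuationSubring κ, Above v V → ∀ σ : κ ≃ₐ[K] κ, Ine V σ →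
      ∀ z : K', σ (algebraMap K' κ z) = algebraMap K' κ z) (i : K' →ₐ[K] C) : LocAt ℓ L i S' := by
  letI iC : Algebra K' C := (i : K' →+* C).toAlgebra
  haveI : IsScalarTower K K' C := IsScalarTower.of_algebraMap_eq fun c => (i.commutes c).symm
  let L' : IntermediateField L C := IntermediateField.adjoin L (Set.range i)
  letI iL : Algebra K' L' := ((i : K' →+* C).codRestrict L'.toSubfield
    (fun c => IntermediateField.subset_adjoin L _ ⟨c, rfl⟩)).toAlgebra
  haveI : IsScalarTower K' L' C := IsScalarTower.of_algebraMap_eq fun c => rfl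
  have key : LocPow ℓ L' S' := locPow_up hζ hS hinj hSS' hpow hunr (L' := L') (fun τ hτ z => by
    have h1 : L' ≤ IntermediateField.fixedField (Subgroup.zpowers τ) := by
      rw [IntermediateField.adjoin_le_iff]
      rintro _ ⟨c, rfl⟩
      change i c ∈ IntermediateField.fixedField (Subgroup.zpowers τ)
      rw [IntermediateField.mem_fixedField_iff]
      intro g hg
      obtain ⟨n, rfl⟩ := Subgroup.mem_zpowers_iff.1 hg
      have h5 : τ ∈ MulAction.stabilizer (C ≃ₐ[L] C) (i c) := hτ c
      exact (MulAction.stabilizer (C ≃ₐ[L] C) (i c)).zpow_mem h5 n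
    have h2 := h1 z.2
    rw [IntermediateField.mem_fixedField_iff] at h2
    exact h2 τ (Subgroup.mem_zpowers _))
  rintro a ha hv ⟨z, hz, hza⟩
  exact key a ha hv ⟨⟨z, hz⟩, Subtype.ext hza⟩

end tower

end Pool.Agent.K3h82.OT
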