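import Pool.Agent.K3h82.OP.Main3

/-!
# Values of the functions over a larger constant field
-/

set_option autoImplicit false
set_option linter.all false

open Polynomial FF Pool.Agent.Y157.PS Pool.Agent.TH954 IsDedekindDomain NumberField

namespace Pool.Agent.K3h82.OT

/-- functions over `K'` are linear combinations of functions over `K` -/
theorem rep {K K' Ω : Type} [Field K] [Field K'] [Field Ω] [Algebra K K'] [Algebra K Ω]
    [Algebra K' Ω] [IsScalarTower K K' Ω] [Algebra.IsAlgebraic K K'] (S : Set Ω) {ι : Type}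
    [Fintype ι] (b : Module.Basis ι K K') {f : Ω} (hf : f ∈ IntermediateField.adjoin K' S) :
    ∃ g : ι → Ω, (∀ i, g i ∈ IntermediateField.adjoin K S) ∧
      f = ∑ i, algebraMap K' Ω (b i) * g i := by
  let k₁ : IntermediateField K Ω := IntermediateField.adjoin K S
  let A : IntermediateField k₁ Ω := IntermediateField.adjoin k₁ (Set.range (algebraMap K' Ω))
  have hfA : f ∈ A := by
    refine adjoin_le_sub (K := K') (T := A.toSubfield) (fun c => ?_) (fun z hz => ?_) f hf
    · exact IntermediateField.subset_adjoin k₁ _ ⟨c, rfl⟩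
    · exact A.algebraMap_mem ⟨z, IntermediateField.subset_adjoin K S hz⟩
  have halg : ∀ z ∈ Set.range (algebraMap K' Ω), IsAlgebraic k₁ z := by
    rintro _ ⟨c, rfl⟩
    have h1 : IsAlgebraic K (algebraMap K' Ω c) :=
      (Algebra.IsAlgebraic.isAlgebraic (R := K) c).algebraMap
    exact h1.tower_top k₁
  have hA : A.toSubalgebra = Algebra.adjoin k₁ (Set.range (algebraMap K' Ω)) :=
    IntermediateField.adjoin_toSubalgebra_of_isAlgebraic halg
  have h2 : f ∈ Algebra.adjoin k₁ (Set.range (algebraMap K' Ω)) := by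
    rw [← hA]
    exact hfA
  have h3 : f ∈ Subalgebra.toSubmodule (Algebra.adjoin k₁ (Set.range (algebraMap K' Ω))) := h2
  rw [Algebra.adjoin_eq_span] at h3
  have h4 : (Submonoid.closure (Set.range (algebraMap K' Ω)) : Set Ω) =
      Set.range (algebraMap K' Ω) := by
    have h5 : Set.range (algebraMap K' Ω) =
        (MonoidHom.mrange ((algebraMap K' Ω : K' →+* Ω) : K' →* Ω) : Set Ω) := by
      ext z
      simp
    rw [h5, Submonoid.closure_eq]
  rw [h4] at h3
  have h5 : Submodule.span k₁ (Set.range (algebraMap K' Ω)) ≤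
      Submodule.span k₁ (Set.range fun i => algebraMap K' Ω (b i)) := by
    rw [Submodule.span_le]
    rintro _ ⟨c, rfl⟩
    rw [← b.sum_repr c, map_sum]
    refine Submodule.sum_mem _ fun i _ => ?_
    rw [Algebra.smul_def, map_mul, ← IsScalarTower.algebraMap_apply]
    have h6 := Submodule.smul_mem (Submodule.span k₁ (Set.range fun i => algebraMap K' Ω (b i)))
      (algebraMap K k₁ (b.repr c i)) (Submodule.subset_span ⟨i, rfl⟩)
    exact h6
  obtain ⟨c, hc⟩ := (Submodule.mem_span_range_iff_exists_fun k₁).1 (h5 h3)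
  refine ⟨fun i => (c i : Ω), fun i => (c i).2, ?_⟩
  rw [← hc]
  refine Finset.sum_congr rfl fun i _ => ?_
  rw [mul_comm]
  rfl

/-- the values of the functions over `K'` at a point which is rational over `K` -/
theorem val_up {K K' N C : Type} [Field K] [Field K'] [Field N] [Field C] [Algebra K K']
    [Algebra K N] [Algebra K C] (p : Plc K N C) (j : K' →ₐ[K] N) (i' : K' →ₐ[K] C)
    (hj : ∀ c, p.val (j c) (i' c)) (T : Subfield N)
    (hT : ∀ f ∈ T, f ∈ p.W → ∃ c : K, p.val f (algebraMap K C c)) {ι : Type} [Fintype ι]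
    (b : Module.Basis ι K K') (g : ι → N) (hg : ∀ i, g i ∈ T) {f : N}
    (hf : f = ∑ i, j (b i) * g i) (hfW : f ∈ p.W) : ∃ c : K', p.val f (i' c) := by
  classical
  by_cases hall : ∀ i, g i ∈ p.W
  · choose c hc using fun i => hT (g i) (hg i) (hall i)
    refine ⟨∑ i, c i • b i, ?_⟩
    rw [hf, map_sum]
    refine Plc.val_sum _ fun i _ => ?_
    rw [map_smul, Algebra.smul_def, mul_comm (algebraMap K C (c i))]
    exact (hj (b i)).mul (hc i)
  exfalso
  push Not at hall
  obtain ⟨i₀, hi₀⟩ := hall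
  obtain ⟨i₁, -, hi₁⟩ := Finset.exists_max_image Finset.univ (fun i => p.W.valuation (g i))
    ⟨i₀, Finset.mem_univ _⟩
  have hmem : g i₁ ∉ p.W := by
    intro h
    apply hi₀
    rw [← ValuationSubring.valuation_le_one_iff] at h ⊢
    exact (hi₁ i₀ (Finset.mem_univ _)).trans h
  have h0 : g i₁ ≠ 0 := by
    intro h
    apply hmem
    rw [h]
    exact zero_mem _
  have hv0 : p.W.valuation (g i₁) ≠ 0 := (Valuation.ne_zero_iff _).2 h0
  have hquo : ∀ i, g i * (g i₁)⁻¹ ∈ p.W := by
    intro i
    rw [← ValuationSubring.valuation_le_one_iff, map_mul, map_inv₀]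
    exact (mul_inv_le_one_of_le₀ (hi₁ i (Finset.mem_univ _)) zero_le')
  choose c hc using fun i => hT (g i * (g i₁)⁻¹) (mul_mem (hg i) (inv_mem (hg i₁))) (hquo i)
  have h1 : p.val (f * (g i₁)⁻¹) 0 := by
    obtain ⟨c', hc'⟩ := Plc.val_of_mem hfW
    have h2 := hc'.mul (Plc.val_inv_of_notMem hmem)
    rwa [mul_zero] at h2
  have h2 : p.val (f * (g i₁)⁻¹) (i' (∑ i, c i • b i)) := by
    rw [hf, Finset.sum_mul, map_sum]
    refine Plc.val_sum _ fun i _ => ?_
    rw [map_smul, Algebra.smul_def, mul_comm (algebraMap K C (c i)), mul_assoc]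
    exact (hj (b i)).mul (hc i)
  have h3 := h1.unique h2
  have h4 : ∑ i, c i • b i = 0 := by
    apply i'.injective
    change i' _ = i' _
    rw [map_zero i', ← h3]
  have h5 : c i₁ = 0 := by
    have h6 := b.linearIndependent
    rw [Fintype.linearIndependent_iff] at h6
    exact h6 c h4 i₁
  have h6 : p.val (g i₁ * (g i₁)⁻¹) 1 := by
    rw [mul_inv_cancel₀ h0]
    exact Plc.val_one
  have h7 := (hc i₁).unique h6
  rw [h5, map_zero] at h7
  exact zero_ne_one h7

end Pool.Agent.K3h82.OT
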